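import Mathlib

set_option autoImplicit false

namespace Pool.Agent.TH203.NM

/-- conclusion of the counting: all numbers natural -/
lemma numer (n k d M m0 s s' : ℕ) (hn : 1 ≤ n) (hd : 3 * k + 2 ≤ d)
    (h1 : M * (k + d).choose (k + (k + 1)) ≤
      m0 * (k + d + n - 1).choose (d - (k + 1)) + s' * (k + d + n - 1).choose (k + (k + 1)))
    (h2 : m0 * (n + k - 1).choose k + s * (n + k - 1).choose k ≤
      s * (n + (k + (k + 1)) - 1).choose (k + (k + 1)))
    (hs : s' ≤ s) :
    M * (n + k - 1).choose k ≤ s * (n + (k + d) - 1).choose (k + d) := by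
  obtain ⟨p, rfl⟩ : ∃ p, n = p + 1 := ⟨n - 1, by omega⟩
  obtain ⟨c, rfl⟩ : ∃ c, d = 3 * k + 2 + c := ⟨d - (3 * k + 2), by omega⟩
  set P := (k + (3 * k + 2 + c)).choose (k + (k + 1)) with hP
  set ND := (p + 1 + (k + (3 * k + 2 + c)) - 1).choose (k + (3 * k + 2 + c)) with hND
  set XX := (k + (3 * k + 2 + c) + (p + 1) - 1).choose (3 * k + 2 + c - (k + 1)) with hX
  set Y := (k + (3 * k + 2 + c) + (p + 1) - 1).choose (k + (k + 1)) with hY
  set Nk := (p + 1 + k - 1).choose k with hNk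
  set A := (p + 1 + (k + (k + 1)) - 1).choose (k + (k + 1)) with hA
  set B := (p + (2 * k + 1 + c)).choose (2 * k + 1 + c) with hB
  have hPpos : 0 < P := Nat.choose_pos (by omega)
  have hBpos : 0 < B := Nat.choose_pos (by omega)
  have e1 : p + 1 + (k + (3 * k + 2 + c)) - 1 = p + (4 * k + 2 + c) := by omega
  have e2 : k + (3 * k + 2 + c) = 4 * k + 2 + c := by omega
  have e3 : k + (3 * k + 2 + c) + (p + 1) - 1 = p + (4 * k + 2 + c) := by omega
  have e4 : 3 * k + 2 + c - (k + 1) = 2 * k + 1 + c := by omega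
  have e5 : k + (k + 1) = 2 * k + 1 := by omega
  have e6 : p + 1 + (k + (k + 1)) - 1 = p + (2 * k + 1) := by omega
  have hYB : ND * P = Y * B := by
    rw [hND, hP, hY, hB, e1, e3, e2, e5]
    rw [Nat.choose_mul (by omega)]
    congr 2 <;> omega
  have hXA : ND * P = XX * A := by
    rw [hND, hP, hX, hA, e6, e1, e3, e2, e4, e5]
    have h3 : (4 * k + 2 + c).choose (2 * k + 1) = (4 * k + 2 + c).choose (2 * k + 1 + c) := by
      rw [← Nat.choose_symm (by omega : 2 * k + 1 ≤ 4 * k + 2 + c)]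
      congr 1; omega
    rw [h3, Nat.choose_mul (by omega)]
    congr 2 <;> omega
  have hAB : A ≤ B := by
    rw [hA, hB, e6, e5]
    have h4 : (p + (2 * k + 1)).choose (2 * k + 1) = (p + (2 * k + 1)).choose p := by
      rw [← Nat.choose_symm (by omega : 2 * k + 1 ≤ p + (2 * k + 1))]
      congr 1; omega
    have h5 : (p + (2 * k + 1 + c)).choose (2 * k + 1 + c) = (p + (2 * k + 1 + c)).choose p := by
      rw [← Nat.choose_symm (by omega : 2 * k + 1 + c ≤ p + (2 * k + 1 + c))]
      congr 1; omega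
    rw [h4, h5]
    exact Nat.choose_le_choose _ (by omega)
  have hYX : Y ≤ XX := by
    have : Y * B ≤ XX * B := by
      rw [← hYB, hXA]; exact Nat.mul_le_mul_left _ hAB
    exact Nat.le_of_mul_le_mul_right this hBpos
  have key : (M * Nk) * P ≤ (s * ND) * P := by
    calc (M * Nk) * P = (M * P) * Nk := by ring
      _ ≤ (m0 * XX + s' * Y) * Nk := Nat.mul_le_mul_right _ h1
      _ ≤ (m0 * XX + s * XX) * Nk :=
          Nat.mul_le_mul_right _ (Nat.add_le_add_left (Nat.mul_le_mul hs hYX) _)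
      _ = (m0 * Nk + s * Nk) * XX := by ring
      _ ≤ (s * A) * XX := Nat.mul_le_mul_right _ h2
      _ = s * (XX * A) := by ring
      _ = s * (ND * P) := by rw [hXA]
      _ = (s * ND) * P := by ring
  exact Nat.le_of_mul_le_mul_right key hPpos

lemma count4_aux (N m : ℕ) :
    (4 * m + 4 + (N + 2)).choose (N + 2) ≤ 4 ^ (N + 2) * (m + (N + 2)).choose (N + 2) := by
  induction N with
  | zero =>
    have h1 : (4 * m + 4 + (0 + 2)).choose (0 + 2) * 2 = (4 * m + 6) * (4 * m + 5) := by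
      have := Nat.choose_two_right (4 * m + 6)
      have h2 : (4 * m + 4 + (0 + 2)).choose (0 + 2) = (4 * m + 6).choose 2 := rfl
      rw [h2, this]
      have h3 : (4 * m + 6) * (4 * m + 6 - 1) = (4 * m + 6) * (4 * m + 5) := by congr 1
      rw [h3]
      exact Nat.div_mul_cancel (Dvd.dvd.mul_right ⟨2 * m + 3, by ring⟩ _)
    have h4 : (m + (0 + 2)).choose (0 + 2) * 2 = (m + 2) * (m + 1) := by
      have h2 : (m + (0 + 2)).choose (0 + 2) = (m + 2).choose 2 := rfl
      rw [h2, Nat.choose_two_right]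
      have h3 : (m + 2) * (m + 2 - 1) = (m + 2) * (m + 1) := by congr 1
      rw [h3]
      refine Nat.div_mul_cancel ?_
      have := Nat.even_mul_succ_self (m + 1)
      rw [mul_comm]
      exact this.two_dvd
    have : (4 * m + 4 + (0 + 2)).choose (0 + 2) * 2 ≤
        (4 ^ (0 + 2) * (m + (0 + 2)).choose (0 + 2)) * 2 := by
      rw [mul_assoc, h4, h1]
      norm_num
      nlinarith
    exact Nat.le_of_mul_le_mul_right this (by norm_num)
  | succ N ih =>
    have h1 := Nat.add_one_mul_choose_eq (4 * m + 4 + (N + 2)) (N + 2)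
    have h2 := Nat.add_one_mul_choose_eq (m + (N + 2)) (N + 2)
    have e1 : 4 * m + 4 + (N + 1 + 2) = 4 * m + 4 + (N + 2) + 1 := by omega
    have e2 : m + (N + 1 + 2) = m + (N + 2) + 1 := by omega
    have e3 : N + 1 + 2 = N + 2 + 1 := by omega
    rw [e1, e2, e3]
    have hpos : 0 < N + 2 + 1 := by omega
    refine Nat.le_of_mul_le_mul_right (c := N + 2 + 1) ?_ hpos
    rw [← h1]
    calc (4 * m + 4 + (N + 2) + 1) * (4 * m + 4 + (N + 2)).choose (N + 2)
        ≤ (4 * (m + (N + 2) + 1)) * (4 ^ (N + 2) * (m + (N + 2)).choose (N + 2)) :=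
          Nat.mul_le_mul (by omega) ih
      _ = 4 ^ (N + 2 + 1) * ((m + (N + 2) + 1) * (m + (N + 2)).choose (N + 2)) := by
          rw [pow_succ]; ring
      _ = 4 ^ (N + 2 + 1) * (m + (N + 2) + 1).choose (N + 2 + 1) * (N + 2 + 1) := by
          rw [h2]; ring

/-- the count in the last degree: for `N ≥ 2`, `3 m + 2 ≤ d ≤ 3 m + 4` -/
lemma count4 (N m d : ℕ) (hN : 2 ≤ N) (hd : d ≤ 3 * m + 4) :
    (d + m + N).choose N ≤ 4 ^ N * (m + N).choose N := by
  obtain ⟨K, rfl⟩ : ∃ K, N = K + 2 := ⟨N - 2, by omega⟩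
  exact (Nat.choose_le_choose _ (by omega)).trans (count4_aux K m)

end Pool.Agent.TH203.NM
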